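import Mathlib
import Pool.Agent.H72.W.Ineq

set_option autoImplicit false

namespace Pool.Agent.Results.MP_fd8bd4_lc.InfinitelyManyMinimal

/-- `A` is Wadge reducible to `B`: there is a continuous `f : ℝ → ℝ` with `A = f⁻¹(B)`. -/
def WadgeLE (A B : Set ℝ) : Prop := ∃ f : ℝ → ℝ, Continuous f ∧ A = f ⁻¹' B

/-- Wadge equivalence. -/
def WadgeEquiv (A B : Set ℝ) : Prop := WadgeLE A B ∧ WadgeLE B A

/-- Minimal Borel sets: Borel, neither open nor closed, and reducible to every Borel set which is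
neither open nor closed and is reducible to it. -/
def IsMinimal (A : Set ℝ) : Prop :=
  MeasurableSet A ∧ ¬ IsOpen A ∧ ¬ IsClosed A ∧
    ∀ B : Set ℝ, MeasurableSet B → ¬ IsOpen B → ¬ IsClosed B → WadgeLE B A → WadgeLE A B

/-- There are infinitely many pairwise Wadge-inequivalent minimal Borel subsets of `ℝ`. -/
theorem result : ∃ M : ℕ → Set ℝ, (∀ n, IsMinimal (M n)) ∧ ∀ m n, m ≠ n → ¬ WadgeEquiv (M m) (M n) := by
  obtain ⟨Q, hQ⟩ := Pool.Agent.H72.W.exists_QProp
  refine ⟨Pool.Agent.H72.W.AA Q, fun n => ⟨Pool.Agent.H72.W.measurable_AA hQ n,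
    Pool.Agent.H72.W.AA_not_open hQ n, Pool.Agent.H72.W.AA_not_closed hQ n, ?_⟩, ?_⟩
  · rintro B - hBo - ⟨f, hf, rfl⟩
    obtain ⟨g, hg, h⟩ := Pool.Agent.H72.W.reduce_main hQ n hf
      (by
        rw [Set.nonempty_iff_ne_empty]
        intro he
        exact hBo (by rw [he]; exact isOpen_empty))
      (by
        intro he
        exact hBo (by rw [he]; exact isOpen_univ))
    exact ⟨g, hg, h⟩
  · rintro m n hmn ⟨⟨f, hf, h1⟩, ⟨g, hg, h2⟩⟩
    rcases lt_or_gt_of_ne hmn with h | h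
    · exact Pool.Agent.H72.W.not_reducible hQ h hg h2
    · exact Pool.Agent.H72.W.not_reducible hQ h hf h1

end Pool.Agent.Results.MP_fd8bd4_lc.InfinitelyManyMinimal
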